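import Pool.Agent.H47.Newt2.TAP

/-! # NEWTON2, module TSP: variables which do not occur -/

set_option autoImplicit false

namespace Pool.Newt2

open MvPolynomial Pool.Agent.H39.MonoR Pool.Agent.H75.Mono Pool.Newt

open TIN47 TAP47

theorem sTsp : STsp := by
  intro k _ _ I J J' _ _ c τ m v
  have hmon : ∀ (x : J ⊕ J' → ℂ) (n : J → ℤ), mon x (Sum.elim n (0 : J' → ℤ)) =
      mon (fun j => x (Sum.inl j)) n := by
    intro x n
    unfold mon
    rw [Fintype.prod_sum_type]
    simp
  rw [← mo_Tor (k := k) J', mul_comm]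
  unfold TC
  rw [← mo_prod (ICons_TC c τ m v) ICons_Tor]
  refine mo_bij (f := fun p : (J ⊕ J' → ℂ) × (J ⊕ J' → ℂ) =>
    (((fun a => p.1 (Sum.inl a), fun a => p.2 (Sum.inl a)),
      (fun a => p.1 (Sum.inr a), fun a => p.2 (Sum.inr a))) :
      ((J → ℂ) × (J → ℂ)) × ((J' → ℂ) × (J' → ℂ))))
    (ICons_TC c τ _ v) (ICons.and ((ICons_TC c τ m v).mem PMap.fst) (ICons_Tor.mem PMap.snd))
    (PMap.prodMk (PMap.prodMk (PMap.pi fun a => (PFun.apply (Sum.inl a)).comp PMap.fst)
        (PMap.pi fun a => (PFun.apply (Sum.inl a)).comp PMap.snd))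
      (PMap.prodMk (PMap.pi fun a => (PFun.apply (Sum.inr a)).comp PMap.fst)
        (PMap.pi fun a => (PFun.apply (Sum.inr a)).comp PMap.snd))) ⟨?_, ?_, ?_⟩
  · rintro p ⟨hp, h⟩
    refine ⟨⟨fun a => hp (Sum.inl a), ?_⟩, fun a => hp (Sum.inr a)⟩
    rw [← h]
    exact Finset.sum_congr rfl fun i _ => by rw [hmon]
  · intro p _ q _ h
    have h1 := congrArg (fun z => z.1.1) h
    have h2 := congrArg (fun z => z.1.2) h
    have h3 := congrArg (fun z => z.2.1) h
    have h4 := congrArg (fun z => z.2.2) h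
    refine Prod.ext (funext fun b => ?_) (funext fun b => ?_)
    · cases b with
      | inl b => exact congrFun h1 b
      | inr b => exact congrFun h3 b
    · cases b with
      | inl b => exact congrFun h2 b
      | inr b => exact congrFun h4 b
  · rintro ⟨q, z⟩ ⟨⟨hq, h⟩, hz⟩
    refine ⟨(Sum.elim q.1 z.1, Sum.elim q.2 z.2), ⟨?_, ?_⟩, rfl⟩
    · intro b
      cases b with
      | inl b => exact hq b
      | inr b => exact hz b
    · rw [← h]
      exact Finset.sum_congr rfl fun i _ => by rw [hmon]; rfl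

end Pool.Newt2
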